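import Pool.Agent.Lib.MP_12a475_nt.NegD

namespace Pool.Agent.Results.MP_12a475_nt.LogLogRate

theorem result :
    ∃ c : ℝ, 0 < c ∧ ∃ N : ℕ, ∀ n : ℕ, N ≤ n → ∃ P₁ P₂ : Polynomial ℤ,
      P₁ ≠ 0 ∧ P₂ ≠ 0 ∧ P₁.natDegree ≤ n ∧ P₂.natDegree ≤ n ∧
      (∀ i : ℕ, P₁.coeff i ∈ ({-1, 0, 1} : Set ℤ)) ∧
      (∀ i : ℕ, P₂.coeff i ∈ ({-1, 0, 1} : Set ℤ)) ∧
      ∃ ξ₁ ξ₂ : ℂ, Polynomial.aeval ξ₁ P₁ = 0 ∧ Polynomial.aeval ξ₂ P₂ = 0 ∧ ξ₁ ≠ ξ₂ ∧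
        ‖ξ₁ - ξ₂‖ ≤ Real.exp (-(c * n * Real.log (Real.log n))) :=
  ⟨1 / 320, by norm_num, Pool.Agent.Lib.MP_12a475_nt.Neg.rate⟩

end Pool.Agent.Results.MP_12a475_nt.LogLogRate
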